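import Pool.Agent.Run7.h909.UG.Poly

/-!
# Unitary groups over algebraic extensions of finite fields

Owner helper909.
-/

set_option autoImplicit false
set_option linter.unusedSectionVars false

open Pool.Agent.Y110.FJ (ClosedE)

namespace Run7.h909.UG

open Run7.h909.GT Matrix

variable {C : ∀ (G : Type) [Group G], Prop}

/-- linear groups over a field which is algebraic over a finite field -/
theorem glK_mem (hC : ClosedE C) (κ K : Type) [Fintype κ] [DecidableEq κ] [Field K] (p : ℕ)
    [Fact p.Prime] [Algebra (ZMod p) K] [Algebra.IsAlgebraic (ZMod p) K] : C (GL κ K) := by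
  classical
  refine Pool.Agent.Y430.SS.t_lf C hC.base _ fun E => ?_
  obtain ⟨S, hS⟩ : ∃ S : Set K, S = ⋃ g ∈ E, Set.range fun ij : κ × κ × Bool =>
      if ij.2.2 = true then g ij.1 ij.2.1 else g⁻¹ ij.1 ij.2.1 := ⟨_, rfl⟩
  have hSf : S.Finite := by
    rw [hS]
    exact E.finite_toSet.biUnion fun g _ => Set.finite_range _
  have : Finite S := hSf
  have hfd : FiniteDimensional (ZMod p) (IntermediateField.adjoin (ZMod p) S) :=
    IntermediateField.finiteDimensional_adjoin fun x _ => Algebra.IsIntegral.isIntegral x
  have hfin : Finite (IntermediateField.adjoin (ZMod p) S) := Module.finite_of_finite (ZMod p)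
  obtain ⟨L, hL⟩ : ∃ L : IntermediateField (ZMod p) K, L = IntermediateField.adjoin (ZMod p) S :=
    ⟨_, rfl⟩
  rw [← hL] at hfin
  have hle : Subgroup.closure (E : Set (GL κ K)) ≤
      (Matrix.GeneralLinearGroup.map (n := κ) (algebraMap L K)).range := by
    rw [Subgroup.closure_le]
    intro g hg
    have hent : ∀ i j, g i j ∈ L := by
      intro i j
      rw [hL]
      apply IntermediateField.subset_adjoin
      rw [hS]
      exact Set.mem_biUnion hg ⟨(i, j, true), rfl⟩
    have hent' : ∀ i j, g⁻¹ i j ∈ L := by
      intro i j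
      rw [hL]
      apply IntermediateField.subset_adjoin
      rw [hS]
      exact Set.mem_biUnion hg ⟨(i, j, false), rfl⟩
    have hinj : Function.Injective (algebraMap L K) := (algebraMap L K).injective
    have key : ∀ (g k : GL κ K) (hg : ∀ i j, g i j ∈ L) (hk : ∀ i j, k i j ∈ L), g * k = 1 →
        (Matrix.of fun i j => (⟨g i j, hg i j⟩ : L)) * (Matrix.of fun i j => (⟨k i j, hk i j⟩ : L)) =
          1 := by
      intro g k hg hk e
      ext i j
      have h1 : (g * k) i j = ((1 : GL κ K) : Matrix κ κ K) i j := by rw [e]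
      rw [Units.val_mul, Matrix.mul_apply, Units.val_one, Matrix.one_apply] at h1
      rw [Matrix.mul_apply, Matrix.one_apply]
      push_cast
      refine h1.trans ?_
      split_ifs
      · rfl
      · rfl
    refine ⟨⟨Matrix.of fun i j => ⟨g i j, hent i j⟩, Matrix.of fun i j => ⟨g⁻¹ i j, hent' i j⟩,
      key g g⁻¹ hent hent' (mul_inv_cancel g), key g⁻¹ g hent' hent (inv_mul_cancel g)⟩, ?_⟩
    ext i j
    rfl
  have hfinG : Finite (GL κ L) := inferInstanceAs (Finite (Matrix κ κ L)ˣ)
  have hfr : Finite (Matrix.GeneralLinearGroup.map (n := κ) (algebraMap L K)).range :=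
    Set.finite_range _
  exact Finite.of_injective _ (Subgroup.inclusion_injective hle)

end Run7.h909.UG
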