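import Pool.Agent.Run7.h909.GT.Deg

/-!
# Hermitian forms of Witt index one over rings with a degree function

Owner helper909.
-/

set_option autoImplicit false

open Pool.Agent.Y110.FJ (ClosedE)

namespace Run7.h909.UG

open Run7.h909.GT

/-! ### order lemmas -/

theorem half_le {X P Q : WithBot ℤ} (h : X + X ≤ P + Q) : X ≤ max P Q := by
  by_contra hlt
  rw [not_le, max_lt_iff] at hlt
  obtain ⟨h1, h2⟩ := hlt
  obtain ⟨x, rfl⟩ := WithBot.ne_bot_iff_exists.1 (ne_bot_of_gt h1)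
  induction P using WithBot.recBotCoe with
  | bot =>
    rw [WithBot.bot_add, ← WithBot.coe_add] at h
    exact WithBot.coe_ne_bot (le_bot_iff.1 h)
  | coe p =>
    induction Q using WithBot.recBotCoe with
    | bot =>
      rw [WithBot.add_bot, ← WithBot.coe_add] at h
      exact WithBot.coe_ne_bot (le_bot_iff.1 h)
    | coe q =>
      rw [← WithBot.coe_add, ← WithBot.coe_add, WithBot.coe_le_coe] at h
      rw [WithBot.coe_lt_coe] at h1 h2
      omega

theorem cancel_le {y : ℤ} {X Y : WithBot ℤ} (h : (y : WithBot ℤ) + X ≤ y + Y) : X ≤ Y := by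
  induction X using WithBot.recBotCoe with
  | bot => exact bot_le
  | coe x =>
    induction Y using WithBot.recBotCoe with
    | bot =>
      rw [WithBot.add_bot, ← WithBot.coe_add] at h
      exact absurd (le_bot_iff.1 h) WithBot.coe_ne_bot
    | coe z =>
      rw [← WithBot.coe_add, ← WithBot.coe_add, WithBot.coe_le_coe] at h
      rw [WithBot.coe_le_coe]
      omega

/-- the four point condition for ultrametrics -/
theorem um4 {ab ac ae bc be ce : WithBot ℤ} (h1 : ab ≤ max ac bc) (h2 : ab ≤ max ae be)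
    (h3 : ce ≤ max ac ae) (h4 : ce ≤ max bc be) : ab + ce ≤ max (ac + be) (ae + bc) := by
  rcases le_or_gt ab ac with c1 | c1
  · rcases le_or_gt ce be with c2 | c2
    · exact le_max_of_le_left (add_le_add c1 c2)
    · have c3 : ce ≤ bc := (le_max_iff.1 h4).resolve_right (not_le.2 c2)
      rcases le_or_gt ab ae with c4 | c4
      · exact le_max_of_le_right (add_le_add c4 c3)
      · have c5 : ab ≤ be := (le_max_iff.1 h2).resolve_left (not_le.2 c4)
        have c6 : ce ≤ ac := (le_max_iff.1 h3).resolve_right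
          (not_le.2 (c4.trans_le (c5.trans c2.le)))
        exact le_max_of_le_left (by rw [add_comm]; exact add_le_add c6 c5)
  · have c2 : ab ≤ bc := (le_max_iff.1 h1).resolve_left (not_le.2 c1)
    rcases le_or_gt ce ae with c3 | c3
    · exact le_max_of_le_right (by rw [add_comm]; exact add_le_add c3 c2)
    · have c4 : ce ≤ ac := (le_max_iff.1 h3).resolve_right (not_le.2 c3)
      have c5 : ab ≤ be := (le_max_iff.1 h2).resolve_left
        (not_le.2 (c3.trans_le (c4.trans c1.le)))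
      exact le_max_of_le_left (by rw [add_comm]; exact add_le_add c4 c5)

section form

variable {A : Type} [CommRing A] {ι : Type} [Fintype ι]

/-- the form with the Gram matrix `H` -/
def h0 (τ : A →+* A) (H : Matrix ι ι A) (z w : ι → A) : A := ∑ i, ∑ j, τ (z i) * H i j * w j

/-- the orthogonal sum of a hyperbolic plane and the form with the Gram matrix `H` -/
def hb (τ : A →+* A) (H : Matrix ι ι A) (v w : Fin 2 ⊕ ι → A) : A :=
  τ (v (.inl 0)) * w (.inl 1) + τ (v (.inl 1)) * w (.inl 0) +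
    h0 τ H (fun i => v (.inr i)) (fun i => w (.inr i))

variable {τ : A →+* A} {H : Matrix ι ι A}

theorem h0_comb (y x y' x' : A) (a b c e : ι → A) :
    h0 τ H (fun i => y * a i - x * b i) (fun i => y' * c i - x' * e i) =
      τ y * y' * h0 τ H a c - τ y * x' * h0 τ H a e - τ x * y' * h0 τ H b c +
        τ x * x' * h0 τ H b e := by
  unfold h0
  simp only [Finset.mul_sum, ← Finset.sum_sub_distrib, ← Finset.sum_add_distrib]
  refine Finset.sum_congr rfl fun i _ => Finset.sum_congr rfl fun j _ => ?_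
  rw [map_sub, map_mul, map_mul]
  ring

theorem h0_symm (hτ : ∀ x, τ (τ x) = x) (hH : ∀ i j, H j i = τ (H i j)) (z w : ι → A) :
    h0 τ H w z = τ (h0 τ H z w) := by
  unfold h0
  rw [map_sum]
  rw [Finset.sum_comm]
  refine Finset.sum_congr rfl fun i _ => ?_
  rw [map_sum]
  refine Finset.sum_congr rfl fun j _ => ?_
  rw [map_mul, map_mul, hτ, hH i j]
  ring

theorem hb_symm (hτ : ∀ x, τ (τ x) = x) (hH : ∀ i j, H j i = τ (H i j)) (v w : Fin 2 ⊕ ι → A) :
    hb τ H w v = τ (hb τ H v w) := by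
  unfold hb
  rw [map_add, map_add, map_mul, map_mul, hτ, hτ, ← h0_symm hτ hH]
  ring

/-- the first identity -/
theorem id1 (a b c : Fin 2 ⊕ ι → A) (hb0 : hb τ H b b = 0) :
    τ (b (.inl 1)) * b (.inl 1) * hb τ H a c =
      τ (b (.inl 1)) * c (.inl 1) * hb τ H a b + τ (a (.inl 1)) * b (.inl 1) * hb τ H b c +
        h0 τ H (fun i => b (.inl 1) * a (.inr i) - a (.inl 1) * b (.inr i))
          (fun i => b (.inl 1) * c (.inr i) - c (.inl 1) * b (.inr i)) := by
  rw [h0_comb]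
  unfold hb at hb0 ⊢
  linear_combination (-(τ (a (.inl 1)) * c (.inl 1))) * hb0

/-- the second identity -/
theorem id2 (a b : Fin 2 ⊕ ι → A) (ha0 : hb τ H a a = 0) (hb0 : hb τ H b b = 0) :
    h0 τ H (fun i => b (.inl 1) * a (.inr i) - a (.inl 1) * b (.inr i))
      (fun i => b (.inl 1) * a (.inr i) - a (.inl 1) * b (.inr i)) =
      -(τ (b (.inl 1)) * a (.inl 1) * hb τ H a b + τ (a (.inl 1)) * b (.inl 1) * hb τ H b a) := by
  rw [h0_comb]
  unfold hb at ha0 hb0 ⊢
  linear_combination (τ (b (.inl 1)) * b (.inl 1)) * ha0 + (τ (a (.inl 1)) * a (.inl 1)) * hb0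

/-- the data -/
structure Dat (deg : A → WithBot ℤ) (τ : A →+* A) (H : Matrix ι ι A) : Prop where
  isDeg : IsDeg deg
  inv : ∀ x, τ (τ x) = x
  herm : ∀ i j, H j i = τ (H i j)
  deg_tau : ∀ x, deg (τ x) = deg x
  cs : ∀ z w : ι → A, deg (h0 τ H z w) + deg (h0 τ H z w) ≤ deg (h0 τ H z z) + deg (h0 τ H w w)

variable {deg : A → WithBot ℤ}

namespace Dat

variable [Nontrivial A] (h : Dat deg τ H)
include h

theorem D_symm (v w : Fin 2 ⊕ ι → A) : deg (hb τ H v w) = deg (hb τ H w v) := by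
  rw [hb_symm h.inv h.herm v w, h.deg_tau]

theorem zz {a b : Fin 2 ⊕ ι → A} (ha0 : hb τ H a a = 0) (hb0 : hb τ H b b = 0) :
    deg (h0 τ H (fun i => b (.inl 1) * a (.inr i) - a (.inl 1) * b (.inr i))
      (fun i => b (.inl 1) * a (.inr i) - a (.inl 1) * b (.inr i))) ≤
      deg (a (.inl 1)) + deg (b (.inl 1)) + deg (hb τ H a b) := by
  rw [id2 a b ha0 hb0, h.isDeg.neg]
  refine (h.isDeg.add _ _).trans (max_le ?_ ?_)
  · rw [h.isDeg.mul, h.isDeg.mul, h.deg_tau, add_comm (deg (b (.inl 1)))]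
  · rw [h.isDeg.mul, h.isDeg.mul, h.deg_tau, h.D_symm b a]

/-- the ultrametric inequality -/
theorem step1 {a b c : Fin 2 ⊕ ι → A} (ha0 : hb τ H a a = 0) (hb0 : hb τ H b b = 0)
    (hc0 : hb τ H c c = 0) :
    deg (hb τ H a c) + deg (b (.inl 1)) ≤
      max (deg (hb τ H a b) + deg (c (.inl 1))) (deg (hb τ H b c) + deg (a (.inl 1))) := by
  by_cases hy : b (.inl 1) = 0
  · rw [hy, (h.isDeg.bot 0).2 rfl, WithBot.add_bot]
    exact bot_le
  obtain ⟨y, hyy⟩ := WithBot.ne_bot_iff_exists.1 (fun e => hy ((h.isDeg.bot _).1 e))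
  have e1 := congrArg deg (id1 a b c hb0)
  rw [h.isDeg.mul, h.isDeg.mul, h.deg_tau] at e1
  have e2 := (h.isDeg.add (τ (b (.inl 1)) * c (.inl 1) * hb τ H a b +
    τ (a (.inl 1)) * b (.inl 1) * hb τ H b c)
    (h0 τ H (fun i => b (.inl 1) * a (.inr i) - a (.inl 1) * b (.inr i))
          (fun i => b (.inl 1) * c (.inr i) - c (.inl 1) * b (.inr i))))
  rw [← e1] at e2
  have e3 := h.isDeg.add (τ (b (.inl 1)) * c (.inl 1) * hb τ H a b)
    (τ (a (.inl 1)) * b (.inl 1) * hb τ H b c)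
  rw [h.isDeg.mul, h.isDeg.mul, h.deg_tau, h.isDeg.mul, h.isDeg.mul, h.deg_tau] at e3
  have e4 := half_le ((h.cs (fun i => b (.inl 1) * a (.inr i) - a (.inl 1) * b (.inr i))
    (fun i => b (.inl 1) * c (.inr i) - c (.inl 1) * b (.inr i))).trans
      ((add_le_add (h.zz ha0 hb0) (h.zz hc0 hb0)).trans (le_of_eq (show _ =
        (deg (b (.inl 1)) + deg (c (.inl 1)) + deg (hb τ H a b)) +
        (deg (a (.inl 1)) + deg (b (.inl 1)) + deg (hb τ H b c)) by
          rw [h.D_symm c b]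
          ac_rfl))))
  have e5 := e2.trans (max_le e3 e4)
  rw [← hyy] at e5 ⊢
  refine cancel_le (y := y) ?_
  calc (y : WithBot ℤ) + (deg (hb τ H a c) + y) = y + y + deg (hb τ H a c) := by ac_rfl
    _ ≤ max (y + deg (c (.inl 1)) + deg (hb τ H a b)) (deg (a (.inl 1)) + y + deg (hb τ H b c)) := e5
    _ = max (y + (deg (hb τ H a b) + deg (c (.inl 1)))) (y + (deg (hb τ H b c) + deg (a (.inl 1)))) := by
        congr 1
        · ac_rfl
        · ac_rfl
    _ = y + max (deg (hb τ H a b) + deg (c (.inl 1))) (deg (hb τ H b c) + deg (a (.inl 1))) :=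
        (add_max _ _ _).symm

/-- Ptolemy, if the first vector is at infinity -/
theorem ptol0 {a b c e : Fin 2 ⊕ ι → A} (ha0 : hb τ H a a = 0) (hb0 : hb τ H b b = 0)
    (hc0 : hb τ H c c = 0) (he0 : hb τ H e e = 0) (ha : a (.inl 1) = 0) :
    deg (hb τ H a b) + deg (hb τ H c e) ≤
      max (deg (hb τ H a c) + deg (hb τ H b e)) (deg (hb τ H a e) + deg (hb τ H b c)) := by
  have hz : h0 τ H (fun i => a (.inr i)) (fun i => a (.inr i)) = 0 := by
    have h1 := ha0
    unfold hb at h1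
    rw [ha, map_zero, mul_zero, zero_mul, zero_add, zero_add] at h1
    exact h1
  have key : ∀ v : Fin 2 ⊕ ι → A, deg (hb τ H a v) = deg (a (.inl 0)) + deg (v (.inl 1)) := by
    intro v
    have h1 := h.cs (fun i => a (.inr i)) (fun i => v (.inr i))
    rw [hz, (h.isDeg.bot 0).2 rfl, WithBot.bot_add, le_bot_iff, WithBot.add_eq_bot, or_self,
      h.isDeg.bot] at h1
    unfold hb
    rw [h1, ha, map_zero, zero_mul, add_zero, add_zero, h.isDeg.mul, h.deg_tau]
  have h1 := h.step1 hc0 hb0 he0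
  rw [key, key, key]
  calc deg (a (.inl 0)) + deg (b (.inl 1)) + deg (hb τ H c e) =
      deg (a (.inl 0)) + (deg (hb τ H c e) + deg (b (.inl 1))) := by ac_rfl
    _ ≤ deg (a (.inl 0)) + max (deg (hb τ H c b) + deg (e (.inl 1)))
        (deg (hb τ H b e) + deg (c (.inl 1))) := add_le_add le_rfl h1
    _ = max (deg (a (.inl 0)) + (deg (hb τ H c b) + deg (e (.inl 1))))
        (deg (a (.inl 0)) + (deg (hb τ H b e) + deg (c (.inl 1)))) := add_max _ _ _
    _ = max (deg (a (.inl 0)) + deg (c (.inl 1)) + deg (hb τ H b e))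
        (deg (a (.inl 0)) + deg (e (.inl 1)) + deg (hb τ H b c)) := by
      rw [max_comm, h.D_symm c b]
      congr 1
      · ac_rfl
      · ac_rfl

/-- **Ptolemy's inequality for isotropic vectors** -/
theorem ptol {a b c e : Fin 2 ⊕ ι → A} (ha0 : hb τ H a a = 0) (hb0 : hb τ H b b = 0)
    (hc0 : hb τ H c c = 0) (he0 : hb τ H e e = 0) :
    deg (hb τ H a b) + deg (hb τ H c e) ≤
      max (deg (hb τ H a c) + deg (hb τ H b e)) (deg (hb τ H a e) + deg (hb τ H b c)) := by
  by_cases ha : a (.inl 1) = 0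
  · exact h.ptol0 ha0 hb0 hc0 he0 ha
  by_cases hb' : b (.inl 1) = 0
  · have h1 := h.ptol0 hb0 ha0 hc0 he0 hb'
    rw [h.D_symm b a, max_comm] at h1
    refine h1.trans (le_of_eq ?_)
    congr 1
    · exact add_comm _ _
    · exact add_comm _ _
  by_cases hc : c (.inl 1) = 0
  · have h1 := h.ptol0 hc0 he0 ha0 hb0 hc
    rw [h.D_symm c a, h.D_symm c b, h.D_symm e a, h.D_symm e b, add_comm] at h1
    refine h1.trans (le_of_eq ?_)
    congr 1
    exact add_comm _ _
  by_cases he : e (.inl 1) = 0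
  · have h1 := h.ptol0 he0 hc0 ha0 hb0 he
    rw [h.D_symm e c, h.D_symm e a, h.D_symm e b, h.D_symm c a, h.D_symm c b, add_comm,
      max_comm] at h1
    refine h1.trans (le_of_eq ?_)
    congr 1
    exact add_comm _ _
  obtain ⟨ya, hya⟩ := WithBot.ne_bot_iff_exists.1 (fun e => ha ((h.isDeg.bot _).1 e))
  obtain ⟨yb, hyb⟩ := WithBot.ne_bot_iff_exists.1 (fun e => hb' ((h.isDeg.bot _).1 e))
  obtain ⟨yc, hyc⟩ := WithBot.ne_bot_iff_exists.1 (fun e => hc ((h.isDeg.bot _).1 e))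
  obtain ⟨ye, hye⟩ := WithBot.ne_bot_iff_exists.1 (fun e' => he ((h.isDeg.bot _).1 e'))
  -- the normalized distances
  have key : ∀ (u v w : Fin 2 ⊕ ι → A) (yu yv yw : ℤ), hb τ H u u = 0 → hb τ H v v = 0 →
      hb τ H w w = 0 → (yu : WithBot ℤ) = deg (u (.inl 1)) → (yv : WithBot ℤ) = deg (v (.inl 1)) →
      (yw : WithBot ℤ) = deg (w (.inl 1)) →
      deg (hb τ H u w) + ((-yu - yw : ℤ) : WithBot ℤ) ≤
        max (deg (hb τ H u v) + ((-yu - yv : ℤ) : WithBot ℤ))
          (deg (hb τ H v w) + ((-yv - yw : ℤ) : WithBot ℤ)) := by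
    intro u v w yu yv yw hu hv hw eu ev ew
    have h1 := h.step1 hu hv hw
    rw [← eu, ← ev, ← ew] at h1
    have h2 : deg (hb τ H u w) + ((-yu - yw : ℤ) : WithBot ℤ) =
        (deg (hb τ H u w) + yv) + ((-yu - yv - yw : ℤ) : WithBot ℤ) := by
      rw [add_assoc, ← WithBot.coe_add]
      congr 2
      ring
    have h3 : deg (hb τ H u v) + ((-yu - yv : ℤ) : WithBot ℤ) =
        (deg (hb τ H u v) + yw) + ((-yu - yv - yw : ℤ) : WithBot ℤ) := by
      rw [add_assoc, ← WithBot.coe_add]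
      congr 2
      ring
    have h4 : deg (hb τ H v w) + ((-yv - yw : ℤ) : WithBot ℤ) =
        (deg (hb τ H v w) + yu) + ((-yu - yv - yw : ℤ) : WithBot ℤ) := by
      rw [add_assoc, ← WithBot.coe_add]
      congr 2
      ring
    rw [h2, h3, h4, ← max_add]
    exact add_le_add h1 le_rfl
  have k1 := key a c b ya yc yb ha0 hc0 hb0 hya hyc hyb
  have k2 := key a e b ya ye yb ha0 he0 hb0 hya hye hyb
  have k3 := key c a e yc ya ye hc0 ha0 he0 hyc hya hye
  have k4 := key c b e yc yb ye hc0 hb0 he0 hyc hyb hye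
  rw [h.D_symm c b, show (-yc - yb : ℤ) = -yb - yc by ring] at k1
  rw [h.D_symm e b, show (-ye - yb : ℤ) = -yb - ye by ring] at k2
  rw [h.D_symm c a, show (-yc - ya : ℤ) = -ya - yc by ring] at k3
  rw [h.D_symm c b, show (-yc - yb : ℤ) = -yb - yc by ring] at k4
  have h1 := um4 k1 k2 k3 k4
  have h2 : ∀ (X Y : WithBot ℤ) (m n : ℤ), X + ((m : ℤ) : WithBot ℤ) + (Y + ((n : ℤ) : WithBot ℤ)) =
      (X + Y) + ((m + n : ℤ) : WithBot ℤ) := by
    intro X Y m n
    rw [WithBot.coe_add]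
    ac_rfl
  rw [h2, h2, h2, show (-ya - yb + (-yc - ye) : ℤ) = -ya - yb - yc - ye by ring,
    show (-ya - yc + (-yb - ye) : ℤ) = -ya - yb - yc - ye by ring,
    show (-ya - ye + (-yb - yc) : ℤ) = -ya - yb - yc - ye by ring, ← max_add,
    add_comm _ (((-ya - yb - yc - ye : ℤ)) : WithBot ℤ),
    add_comm _ (((-ya - yb - yc - ye : ℤ)) : WithBot ℤ)] at h1
  exact cancel_le h1

end Dat

end form

end Run7.h909.UG
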