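import Pool.Agent.Run7.h909.UG.Form

/-!
# Unitary groups of Witt index one act on trees

Owner helper909.
-/

set_option autoImplicit false

open Pool.Agent.Y110.FJ (ClosedE)

namespace Run7.h909.UG

open Run7.h909.GT Matrix

section grp

variable {A : Type} [CommRing A] {ι : Type} [Fintype ι] [DecidableEq ι]

/-- the isometry group of the orthogonal sum of a hyperbolic plane and the form with the Gram matrix
`H` -/
def Uh (τ : A →+* A) (H : Matrix ι ι A) : Subgroup (GL (Fin 2 ⊕ ι) A) where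
  carrier := {g | ∀ v w, hb τ H ((g : Matrix _ _ A) *ᵥ v) ((g : Matrix _ _ A) *ᵥ w) = hb τ H v w}
  one_mem' v w := by rw [Units.val_one, one_mulVec, one_mulVec]
  mul_mem' := by
    intro g k hg hk v w
    rw [Units.val_mul, ← mulVec_mulVec, ← mulVec_mulVec, hg, hk]
  inv_mem' := by
    intro g hg v w
    rw [← hg, mulVec_mulVec, mulVec_mulVec, Units.mul_inv, one_mulVec, one_mulVec]

/-- the isotropic vectors that span -/
def av (H : Matrix ι ι A) : Fin 2 ⊕ ι → (Fin 2 ⊕ ι → A)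
  | .inl 0 => Sum.elim ![1, 0] 0
  | .inl 1 => Sum.elim ![0, 1] 0
  | .inr i => Sum.elim ![-(H i i), 2] (fun j => if j = i then 2 else 0)

variable {τ : A →+* A} {H : Matrix ι ι A}

theorem h0_zero_left (w : ι → A) : h0 τ H 0 w = 0 := by
  simp [h0]

theorem h0_zero_right (w : ι → A) : h0 τ H w 0 = 0 := by
  simp [h0]

theorem av_iso (hH : ∀ i j, H j i = τ (H i j)) (p : Fin 2 ⊕ ι) : hb τ H (av H p) (av H p) = 0 := by
  rcases p with p | i
  · fin_cases p
    · show hb τ H (Sum.elim ![1, 0] 0) (Sum.elim ![1, 0] 0) = 0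
      have h1 : h0 τ H (fun i => (Sum.elim ![1, 0] 0 : Fin 2 ⊕ ι → A) (.inr i))
        (fun i => (Sum.elim ![1, 0] 0 : Fin 2 ⊕ ι → A) (.inr i)) = 0 := h0_zero_left _
      unfold hb
      rw [h1]
      simp
    · show hb τ H (Sum.elim ![0, 1] 0) (Sum.elim ![0, 1] 0) = 0
      have h1 : h0 τ H (fun i => (Sum.elim ![0, 1] 0 : Fin 2 ⊕ ι → A) (.inr i))
        (fun i => (Sum.elim ![0, 1] 0 : Fin 2 ⊕ ι → A) (.inr i)) = 0 := h0_zero_left _
      unfold hb
      rw [h1]
      simp
  · show hb τ H (Sum.elim ![-(H i i), 2] (fun j => if j = i then 2 else 0))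
      (Sum.elim ![-(H i i), 2] (fun j => if j = i then 2 else 0)) = 0
    have h1 : h0 τ H (fun j => if j = i then (2 : A) else 0) (fun j => if j = i then 2 else 0) =
        4 * H i i := by
      unfold h0
      rw [Finset.sum_eq_single i, Finset.sum_eq_single i]
      · simp only [if_true, map_ofNat]
        ring
      · intro j _ hj
        show _ * (if j = i then (2 : A) else 0) = 0
        rw [if_neg hj, mul_zero]
      · intro hi
        exact absurd (Finset.mem_univ i) hi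
      · intro j _ hj
        refine Finset.sum_eq_zero fun k _ => ?_
        show τ (if j = i then (2 : A) else 0) * _ * _ = 0
        rw [if_neg hj, map_zero, zero_mul, zero_mul]
      · intro hi
        exact absurd (Finset.mem_univ i) hi
    unfold hb
    have h2 := hH i i
    show τ (-(H i i)) * 2 + τ 2 * (-(H i i)) + h0 τ H (fun j => if j = i then (2 : A) else 0)
      (fun j => if j = i then 2 else 0) = 0
    rw [h1, map_neg, ← h2, map_ofNat]
    ring

theorem iso_smul (g : Uh τ H) {v : Fin 2 ⊕ ι → A} (hv : hb τ H v v = 0) :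
    hb τ H (((g : GL (Fin 2 ⊕ ι) A) : Matrix _ _ A) *ᵥ v)
      (((g : GL (Fin 2 ⊕ ι) A) : Matrix _ _ A) *ᵥ v) = 0 := by
  rw [g.2 v v, hv]

/-- the pairing of the translates of the isotropic vectors -/
def cp (g k : Uh τ H) (p : (Fin 2 ⊕ ι) × (Fin 2 ⊕ ι)) : A :=
  hb τ H (((g : GL (Fin 2 ⊕ ι) A) : Matrix _ _ A) *ᵥ av H p.1)
    (((k : GL (Fin 2 ⊕ ι) A) : Matrix _ _ A) *ᵥ av H p.2)

/-- the largest degree -/
def WU (deg : A → WithBot ℤ) (g k : Uh τ H) : WithBot ℤ :=
  Finset.univ.sup fun p => deg (cp g k p)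

variable {deg : A → WithBot ℤ}

theorem le_WU (g k : Uh τ H) (p : (Fin 2 ⊕ ι) × (Fin 2 ⊕ ι)) : deg (cp g k p) ≤ WU deg g k :=
  Finset.le_sup (f := fun p => deg (cp g k p)) (Finset.mem_univ p)

theorem WU_ex (g k : Uh τ H) : ∃ p, WU deg g k = deg (cp g k p) := by
  obtain ⟨p, -, hp⟩ := Finset.exists_mem_eq_sup Finset.univ ⟨(.inl 0, .inl 0), Finset.mem_univ _⟩
    (fun p => deg (cp g k p))
  exact ⟨p, hp⟩

variable [Nontrivial A] (h : Dat deg τ H)
include h

theorem WU_four (a b c e : Uh τ H) :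
    WU deg a b + WU deg c e ≤ max (WU deg a c + WU deg b e) (WU deg a e + WU deg b c) := by
  obtain ⟨p, hp⟩ := WU_ex (deg := deg) a b
  obtain ⟨q, hq⟩ := WU_ex (deg := deg) c e
  rw [hp, hq]
  refine (h.ptol (iso_smul a (av_iso h.herm p.1)) (iso_smul b (av_iso h.herm p.2))
    (iso_smul c (av_iso h.herm q.1)) (iso_smul e (av_iso h.herm q.2))).trans (max_le_max ?_ ?_)
  · exact add_le_add (le_WU a c (p.1, q.1)) (le_WU b e (p.2, q.2))
  · exact add_le_add (le_WU a e (p.1, q.2)) (le_WU b c (p.2, q.1))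

theorem WU_symm (g k : Uh τ H) : WU deg g k = WU deg k g := by
  have key : ∀ g k : Uh τ H, WU deg g k ≤ WU deg k g := by
    intro g k
    refine Finset.sup_le fun p _ => ?_
    refine le_trans (le_of_eq ?_) (le_WU k g (p.2, p.1))
    exact h.D_symm _ _
  exact le_antisymm (key g k) (key k g)

omit h in
theorem cp_mul (a g k : Uh τ H) (p : (Fin 2 ⊕ ι) × (Fin 2 ⊕ ι)) :
    cp (a * g) (a * k) p = cp g k p := by
  unfold cp
  rw [Subgroup.coe_mul, Subgroup.coe_mul, Units.val_mul, Units.val_mul, ← mulVec_mulVec,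
    ← mulVec_mulVec]
  exact a.2 _ _

omit h in
theorem WU_mul (a g k : Uh τ H) : WU deg (a * g) (a * k) = WU deg g k := by
  unfold WU
  exact Finset.sup_congr rfl fun p _ => by rw [cp_mul]

omit h in
theorem WU_self (g : Uh τ H) : WU deg g g = WU deg (1 : Uh τ H) 1 := by
  have h1 := WU_mul (deg := deg) g 1 1
  rw [mul_one] at h1
  exact h1

theorem zero_le_WU : (0 : WithBot ℤ) ≤ WU deg (1 : Uh τ H) 1 := by
  have h1 := le_WU (deg := deg) (1 : Uh τ H) 1 (.inl 0, .inl 1)
  have h2 : cp (1 : Uh τ H) 1 (.inl 0, .inl 1) = 1 := by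
    unfold cp
    rw [Subgroup.coe_one, Units.val_one, one_mulVec, one_mulVec]
    show hb τ H (Sum.elim ![1, 0] 0) (Sum.elim ![0, 1] 0) = 1
    have h1 : h0 τ H (fun i => (Sum.elim ![1, 0] 0 : Fin 2 ⊕ ι → A) (.inr i))
      (fun i => (Sum.elim ![0, 1] 0 : Fin 2 ⊕ ι → A) (.inr i)) = 0 := h0_zero_left _
    unfold hb
    rw [h1]
    simp
  rw [h2, h.isDeg.one] at h1
  exact h1

theorem WU_ne (g k : Uh τ H) : WU deg g k ≠ ⊥ := by
  intro e
  have h2 := WU_four h g g k k
  rw [e, WU_self, WU_self k, WithBot.bot_add, max_self, le_bot_iff, WithBot.add_eq_bot,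
    or_self] at h2
  have h1 := zero_le_WU h
  rw [h2, le_bot_iff] at h1
  exact WithBot.coe_ne_bot h1

omit h [Nontrivial A] in
/-- the integer -/
def wU (deg : A → WithBot ℤ) (g k : Uh τ H) : ℤ := (WU deg g k).unbotD 0

theorem coe_wU (g k : Uh τ H) : ((wU deg g k : ℤ) : WithBot ℤ) = WU deg g k := by
  obtain ⟨n, hn⟩ := WithBot.ne_bot_iff_exists.1 (WU_ne h g k)
  unfold wU
  rw [← hn]
  rfl

omit h [Nontrivial A] in
/-- the distance -/
def dU (deg : A → WithBot ℤ) (g k : Uh τ H) : ℤ := 2 * wU deg g k - 2 * wU deg (1 : Uh τ H) 1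

theorem dU_zh : ZH (dU (τ := τ) (H := H) deg) where
  self g := by
    have h1 : wU deg g g = wU deg (1 : Uh τ H) 1 := by
      unfold wU
      rw [WU_self]
    unfold dU
    rw [h1]
    ring
  symm g k := by
    have h1 : wU deg g k = wU deg k g := by
      unfold wU
      rw [WU_symm h]
    unfold dU
    rw [h1]
  four a b c e := by
    have h1 := WU_four h a b c e
    simp only [← coe_wU h, ← WithBot.coe_add] at h1
    rw [← WithBot.coe_max, WithBot.coe_le_coe] at h1
    unfold dU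
    omega
  even a b c := by
    unfold dU
    omega

omit h in
theorem dU_mul (a g k : Uh τ H) : dU deg (a * g) (a * k) = dU deg g k := by
  unfold dU wU
  rw [WU_mul]

variable {C : ∀ (G : Type) [Group G], Prop}

/-- **the tree of a unitary group of Witt index one** -/
theorem rep0 (hC : ClosedE C) {G : Type} [Group G] (ρ : G →* Uh τ H)
    (hP : ∀ n : ℕ, ∃ (P : Type) (_ : Group P) (f : G →* P), C P ∧ ∀ g : G,
      (∀ p q, deg (hb τ H (av H p) (((ρ g : GL (Fin 2 ⊕ ι) A) : Matrix _ _ A) *ᵥ av H q)) ≤ n) →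
        f g = 1 → g = 1) : C G := by
  let _ : MulAction G (Uh τ H) := MulAction.compHom _ ρ
  have hs : ∀ (g : G) (x : Uh τ H), g • x = ρ g * x := fun _ _ => rfl
  refine length_mem hC (G := G) (S := Uh τ H) (dU_zh h) ?_ 1 ?_
  · intro g x y
    rw [hs, hs, dU_mul]
  · intro n
    obtain ⟨P, _, f, hCP, hf⟩ := hP (n + (wU deg (1 : Uh τ H) 1).toNat)
    refine ⟨P, _, f, hCP, fun g hg hfg => hf g (fun p q => ?_) hfg⟩
    rw [hs, mul_one] at hg
    have h1 := le_WU (deg := deg) 1 (ρ g) (p, q)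
    have h2 : cp (1 : Uh τ H) (ρ g) (p, q) =
        hb τ H (av H p) (((ρ g : GL (Fin 2 ⊕ ι) A) : Matrix _ _ A) *ᵥ av H q) := by
      unfold cp
      rw [Subgroup.coe_one, Units.val_one, one_mulVec]
    rw [h2, ← coe_wU h] at h1
    refine h1.trans ?_
    have h3 : wU deg 1 (ρ g) ≤ ((n + (wU deg (1 : Uh τ H) 1).toNat : ℕ) : ℤ) := by
      unfold dU at hg
      have h4 := dU_zh h |>.nonneg 1 (ρ g)
      unfold dU at h4
      push_cast
      have h5 := Int.self_le_toNat (wU deg (1 : Uh τ H) 1)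
      omega
    exact_mod_cast h3

end grp

end Run7.h909.UG
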