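import Pool.Agent.Run7.h909.UG.Grp
import Pool.Agent.Run7.h909.GT.Rng

/-!
# Unitary groups of Witt index one over rings with a degree function

Owner helper909.
-/

set_option autoImplicit false

open Pool.Agent.Y110.FJ (ClosedE)

namespace Run7.h909.UG

open Run7.h909.GT Matrix

variable {C : ∀ (G : Type) [Group G], Prop}

section img

variable {κ : Type} [Fintype κ] [DecidableEq κ]

theorem map_entry' {B B' : Type} [CommRing B] [CommRing B'] (φ : B →+* B') (g : GL κ B)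
    (i j : κ) : (GeneralLinearGroup.map φ g) i j = φ (g i j) := rfl

theorem map_inj' {B B' : Type} [CommRing B] [CommRing B'] (φ : B →+* B')
    (h : Function.Injective φ) :
    Function.Injective (GeneralLinearGroup.map (n := κ) φ) := by
  intro g k e
  ext i j
  apply h
  rw [← map_entry', ← map_entry', e]

theorem ker_sub {B B' : Type} [CommRing B] [CommRing B'] (φ : B →+* B') (g : GL κ B)
    (hg : GeneralLinearGroup.map φ g = 1) (i j : κ) :
    φ (((g : Matrix κ κ B) - 1) i j) = 0 := by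
  rw [Matrix.sub_apply, map_sub]
  have h1 := map_entry' φ g i j
  rw [hg] at h1
  rw [← h1]
  have h2 : ((1 : GL κ B') : Matrix κ κ B') i j = φ ((1 : Matrix κ κ B) i j) := by
    rw [Units.val_one, Matrix.one_apply, Matrix.one_apply]
    split_ifs
    · rw [map_one]
    · rw [map_zero]
  rw [← h2]
  exact sub_self _

theorem comm_ker {B B' : Type} [CommRing B] [CommRing B'] (φ : B →+* B')
    (hφ : ∀ x y, φ x = 0 → φ y = 0 → x * y = 0) (g k : GL κ B)
    (hg : GeneralLinearGroup.map φ g = 1) (hk : GeneralLinearGroup.map φ k = 1) :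
    g * k = k * g := by
  have h0 : ∀ g k : GL κ B, GeneralLinearGroup.map φ g = 1 → GeneralLinearGroup.map φ k = 1 →
      ((g : Matrix κ κ B) - 1) * ((k : Matrix κ κ B) - 1) = 0 := by
    intro g k hg hk
    ext i j
    rw [Matrix.mul_apply, Matrix.zero_apply]
    exact Finset.sum_eq_zero fun l _ => hφ _ _ (ker_sub φ g hg i l) (ker_sub φ k hk l j)
  have h1 := h0 g k hg hk
  have h2 := h0 k g hk hg
  apply Units.ext
  rw [Units.val_mul, Units.val_mul]
  have h3 : (g : Matrix κ κ B) * k - k * g =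
      ((g : Matrix κ κ B) - 1) * ((k : Matrix κ κ B) - 1) -
      ((k : Matrix κ κ B) - 1) * ((g : Matrix κ κ B) - 1) := by
    noncomm_ring
  rw [h1, h2, sub_zero] at h3
  exact sub_eq_zero.1 h3

/-- the reduction modulo an ideal -/
noncomputable def rdc {A : Type} [CommRing A] {G : Type} [Group G] (θ : G →* GL κ A)
    (J : Ideal A) : G →* GL κ (A ⧸ J) := (GeneralLinearGroup.map (Ideal.Quotient.mk J)).comp θ

/-- images modulo the powers of an ideal -/
theorem img_mem (hC : ClosedE C) (hsol : ∀ (S : Type) [Group S], Group.IsSolvable S → C S)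
    {A : Type} [CommRing A] {G : Type} [Group G] (θ : G →* GL κ A) (J : Ideal A)
    (h : C (rdc θ J).range) (k : ℕ) : C (rdc θ (J ^ (k + 1))).range := by
  have hfac : ∀ (I J : Ideal A) (e : I ≤ J) (g : G),
      GeneralLinearGroup.map (Ideal.Quotient.factor e) (rdc θ I g) = rdc θ J g := by
    intro I J e g
    ext i j
    rfl
  induction k with
  | zero =>
    have e : J ^ (0 + 1) ≤ J := by rw [zero_add, pow_one]
    refine hC.base.of_injective _ _
      (((GeneralLinearGroup.map (n := κ) (Ideal.Quotient.factor e)).comp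
        (rdc θ (J ^ (0 + 1))).range.subtype).codRestrict (rdc θ J).range ?_) ?_ h
    · rintro ⟨_, g, rfl⟩
      exact ⟨g, (hfac _ _ e g).symm⟩
    · intro x y hxy
      have h1 : GeneralLinearGroup.map (n := κ) (Ideal.Quotient.factor e) (x : GL κ _) =
        GeneralLinearGroup.map (n := κ) (Ideal.Quotient.factor e) (y : GL κ _) :=
          congrArg Subtype.val hxy
      refine Subtype.ext (map_inj' _ ?_ h1)
      rw [injective_iff_map_eq_zero]
      intro x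
      obtain ⟨a, rfl⟩ := Ideal.Quotient.mk_surjective x
      intro hx
      rw [Ideal.Quotient.factor_mk, Ideal.Quotient.eq_zero_iff_mem] at hx
      rw [Ideal.Quotient.eq_zero_iff_mem, zero_add, pow_one]
      exact hx
  | succ k ih =>
    have e : J ^ (k + 1 + 1) ≤ J ^ (k + 1) := Ideal.pow_le_pow_right (Nat.le_succ _)
    have hcod : ∀ x : (rdc θ (J ^ (k + 1 + 1))).range,
        ((GeneralLinearGroup.map (n := κ) (Ideal.Quotient.factor e)).comp
          (rdc θ (J ^ (k + 1 + 1))).range.subtype) x ∈ (rdc θ (J ^ (k + 1))).range := by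
      rintro ⟨_, g, rfl⟩
      exact ⟨g, (hfac _ _ e g).symm⟩
    refine ext_solv hC hsol (((GeneralLinearGroup.map (n := κ) (Ideal.Quotient.factor e)).comp
        (rdc θ (J ^ (k + 1 + 1))).range.subtype).codRestrict (rdc θ (J ^ (k + 1))).range hcod)
        ih (Group.isSolvable_of_comm ?_)
    rintro ⟨x, hx⟩ ⟨y, hy⟩
    apply Subtype.ext
    apply Subtype.ext
    have hx' : GeneralLinearGroup.map (n := κ) (Ideal.Quotient.factor e) (x : GL κ _) = 1 :=
      congrArg Subtype.val hx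
    have hy' : GeneralLinearGroup.map (n := κ) (Ideal.Quotient.factor e) (y : GL κ _) = 1 :=
      congrArg Subtype.val hy
    refine comm_ker (Ideal.Quotient.factor e) ?_ _ _ hx' hy'
    intro x y
    obtain ⟨a, rfl⟩ := Ideal.Quotient.mk_surjective x
    obtain ⟨b, rfl⟩ := Ideal.Quotient.mk_surjective y
    intro hx hy
    rw [Ideal.Quotient.factor_mk, Ideal.Quotient.eq_zero_iff_mem] at hx hy
    rw [← map_mul, Ideal.Quotient.eq_zero_iff_mem]
    have h1 := Ideal.mul_mem_mul hx hy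
    rw [← pow_add] at h1
    exact Ideal.pow_le_pow_right (by omega) h1

end img

section mem

variable {A : Type} [CommRing A] {ι : Type} [Fintype ι] [DecidableEq ι]
  {τ : A →+* A} {H : Matrix ι ι A} {deg : A → WithBot ℤ}

theorem hb_left0 (v : Fin 2 ⊕ ι → A) : hb τ H (av H (.inl 0)) v = v (.inl 1) := by
  show hb τ H (Sum.elim ![1, 0] 0) v = _
  have h1 : h0 τ H (fun i => (Sum.elim ![1, 0] 0 : Fin 2 ⊕ ι → A) (.inr i))
    (fun i => v (.inr i)) = 0 := h0_zero_left _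
  unfold hb
  rw [h1]
  simp

theorem hb_left1 (v : Fin 2 ⊕ ι → A) : hb τ H (av H (.inl 1)) v = v (.inl 0) := by
  show hb τ H (Sum.elim ![0, 1] 0) v = _
  have h1 : h0 τ H (fun i => (Sum.elim ![0, 1] 0 : Fin 2 ⊕ ι → A) (.inr i))
    (fun i => v (.inr i)) = 0 := h0_zero_left _
  unfold hb
  rw [h1]
  simp

theorem mv0 (g : Matrix (Fin 2 ⊕ ι) (Fin 2 ⊕ ι) A) (p : Fin 2 ⊕ ι) :
    (g *ᵥ av H (.inl 0)) p = g p (.inl 0) := by
  show (g *ᵥ (Sum.elim ![1, 0] 0)) p = _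
  rw [mulVec, dotProduct, Fintype.sum_sum_type]
  simp

theorem mv1 (g : Matrix (Fin 2 ⊕ ι) (Fin 2 ⊕ ι) A) (p : Fin 2 ⊕ ι) :
    (g *ᵥ av H (.inl 1)) p = g p (.inl 1) := by
  show (g *ᵥ (Sum.elim ![0, 1] 0)) p = _
  rw [mulVec, dotProduct, Fintype.sum_sum_type]
  simp

theorem mvr (g : Matrix (Fin 2 ⊕ ι) (Fin 2 ⊕ ι) A) (p : Fin 2 ⊕ ι) (i : ι) :
    2 * g p (.inr i) = (g *ᵥ av H (.inr i)) p + H i i * g p (.inl 0) - 2 * g p (.inl 1) := by
  have h1 : (g *ᵥ av H (.inr i)) p =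
      -(H i i) * g p (.inl 0) + 2 * g p (.inl 1) + 2 * g p (.inr i) := by
    show (g *ᵥ (Sum.elim ![-(H i i), 2] (fun j => if j = i then 2 else 0))) p = _
    rw [mulVec, dotProduct, Fintype.sum_sum_type, Fin.sum_univ_two]
    simp only [Sum.elim_inl, Sum.elim_inr, cons_val_zero, cons_val_one, mul_ite, mul_zero,
      Finset.sum_ite_eq', Finset.mem_univ, if_true]
    ring
  rw [h1]
  ring

variable [Nontrivial A]

/-- entries are bounded -/
theorem bounded (h : Dat deg τ H) (hnn : ∀ x, x ≠ 0 → 0 ≤ deg x) (h2 : (2 : A) ≠ 0)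
    (hbd : ∀ n : ℕ, ∃ m : ℕ, ∀ z : ι → A, deg (h0 τ H z z) ≤ n → ∀ i, deg (z i) ≤ m) (n : ℕ) :
    ∃ N : ℕ, ∀ g : Uh τ H,
      (∀ p q, deg (hb τ H (av H p) (((g : GL (Fin 2 ⊕ ι) A) : Matrix (Fin 2 ⊕ ι) (Fin 2 ⊕ ι) A) *ᵥ av H q)) ≤ n) →
      ∀ p q, deg (((g : GL (Fin 2 ⊕ ι) A) : Matrix (Fin 2 ⊕ ι) (Fin 2 ⊕ ι) A) p q) ≤ N := by
  obtain ⟨m, hm⟩ := hbd (n + n)
  obtain ⟨M, hM⟩ : ∃ M : ℕ, ∀ i, deg (H i i) ≤ M := by
    have h1 : ∀ i, ∃ M : ℕ, deg (H i i) ≤ M := by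
      intro i
      by_cases hd : deg (H i i) = ⊥
      · exact ⟨0, by rw [hd]; exact bot_le⟩
      · obtain ⟨d, hd'⟩ := WithBot.ne_bot_iff_exists.1 hd
        refine ⟨d.toNat, ?_⟩
        rw [← hd']
        have := Int.self_le_toNat d
        exact_mod_cast this
    choose M hM using h1
    refine ⟨∑ i, M i, fun i => (hM i).trans ?_⟩
    have := Finset.single_le_sum (f := M) (fun i _ => Nat.zero_le _) (Finset.mem_univ i)
    exact_mod_cast this
  have hd2 : deg (2 : A) ≤ 0 := by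
    have h1 := h.isDeg.add 1 1
    rw [one_add_one_eq_two, h.isDeg.one, max_self] at h1
    exact h1
  refine ⟨M + (n + m), fun g hg => ?_⟩
  have hN1 : ∀ p q, deg ((((g : GL (Fin 2 ⊕ ι) A) : Matrix (Fin 2 ⊕ ι) (Fin 2 ⊕ ι) A) *ᵥ av H q) p) ≤
      ((n + m : ℕ) : WithBot ℤ) := by
    intro p q
    have hx : deg ((((g : GL (Fin 2 ⊕ ι) A) : Matrix (Fin 2 ⊕ ι) (Fin 2 ⊕ ι) A) *ᵥ av H q) (.inl 0)) ≤ n := by
      have h1 := hg (.inl 1) q
      rwa [hb_left1] at h1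
    have hy : deg ((((g : GL (Fin 2 ⊕ ι) A) : Matrix (Fin 2 ⊕ ι) (Fin 2 ⊕ ι) A) *ᵥ av H q) (.inl 1)) ≤ n := by
      have h1 := hg (.inl 0) q
      rwa [hb_left0] at h1
    rcases p with p | i
    · have h3 : (n : WithBot ℤ) ≤ ((n + m : ℕ) : WithBot ℤ) := by
        exact_mod_cast Nat.le_add_right n m
      fin_cases p
      · exact hx.trans h3
      · exact hy.trans h3
    · have h4 := iso_smul g (av_iso h.herm q)
      have h5 : h0 τ H
          (fun i => (((g : GL (Fin 2 ⊕ ι) A) : Matrix (Fin 2 ⊕ ι) (Fin 2 ⊕ ι) A) *ᵥ av H q) (.inr i))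
          (fun i => (((g : GL (Fin 2 ⊕ ι) A) : Matrix (Fin 2 ⊕ ι) (Fin 2 ⊕ ι) A) *ᵥ av H q) (.inr i)) =
          -(τ ((((g : GL (Fin 2 ⊕ ι) A) : Matrix (Fin 2 ⊕ ι) (Fin 2 ⊕ ι) A) *ᵥ av H q) (.inl 0)) *
            (((g : GL (Fin 2 ⊕ ι) A) : Matrix (Fin 2 ⊕ ι) (Fin 2 ⊕ ι) A) *ᵥ av H q) (.inl 1) +
            τ ((((g : GL (Fin 2 ⊕ ι) A) : Matrix (Fin 2 ⊕ ι) (Fin 2 ⊕ ι) A) *ᵥ av H q) (.inl 1)) *
            (((g : GL (Fin 2 ⊕ ι) A) : Matrix (Fin 2 ⊕ ι) (Fin 2 ⊕ ι) A) *ᵥ av H q) (.inl 0)) := by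
        have h6 : hb τ H (((g : GL (Fin 2 ⊕ ι) A) : Matrix (Fin 2 ⊕ ι) (Fin 2 ⊕ ι) A) *ᵥ av H q)
          (((g : GL (Fin 2 ⊕ ι) A) : Matrix (Fin 2 ⊕ ι) (Fin 2 ⊕ ι) A) *ᵥ av H q) = 0 := h4
        unfold hb at h6
        linear_combination h6
      refine (hm (fun i => (((g : GL (Fin 2 ⊕ ι) A) :
        Matrix (Fin 2 ⊕ ι) (Fin 2 ⊕ ι) A) *ᵥ av H q) (.inr i)) ?_ i).trans ?_
      · rw [h5, h.isDeg.neg]
        refine (h.isDeg.add _ _).trans (max_le ?_ ?_)
        · rw [h.isDeg.mul, h.deg_tau]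
          have := add_le_add hx hy
          exact_mod_cast this
        · rw [h.isDeg.mul, h.deg_tau]
          have := add_le_add hy hx
          exact_mod_cast this
      · exact_mod_cast Nat.le_add_left m n
  intro p q
  have hc0 : deg (((g : GL (Fin 2 ⊕ ι) A) : Matrix (Fin 2 ⊕ ι) (Fin 2 ⊕ ι) A) p (.inl 0)) ≤
      ((n + m : ℕ) : WithBot ℤ) := by
    have h1 := hN1 p (.inl 0)
    rwa [mv0] at h1
  have hc1 : deg (((g : GL (Fin 2 ⊕ ι) A) : Matrix (Fin 2 ⊕ ι) (Fin 2 ⊕ ι) A) p (.inl 1)) ≤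
      ((n + m : ℕ) : WithBot ℤ) := by
    have h1 := hN1 p (.inl 1)
    rwa [mv1] at h1
  have hle : ((n + m : ℕ) : WithBot ℤ) ≤ ((M + (n + m) : ℕ) : WithBot ℤ) := by
    exact_mod_cast Nat.le_add_left (n + m) M
  rcases q with q | i
  · fin_cases q
    · exact hc0.trans hle
    · exact hc1.trans hle
  · have h6 := mvr (H := H) ((g : GL (Fin 2 ⊕ ι) A) : Matrix (Fin 2 ⊕ ι) (Fin 2 ⊕ ι) A) p i
    have h7 : deg (((g : GL (Fin 2 ⊕ ι) A) : Matrix (Fin 2 ⊕ ι) (Fin 2 ⊕ ι) A) p (.inr i)) ≤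
        deg (2 * ((g : GL (Fin 2 ⊕ ι) A) : Matrix (Fin 2 ⊕ ι) (Fin 2 ⊕ ι) A) p (.inr i)) := by
      rw [h.isDeg.mul]
      exact le_add_of_nonneg_left (hnn _ h2)
    refine h7.trans ?_
    rw [h6]
    refine (h.isDeg.sub _ _).trans (max_le ((h.isDeg.add _ _).trans (max_le ?_ ?_)) ?_)
    · exact (hN1 p _).trans hle
    · rw [h.isDeg.mul]
      have := add_le_add (hM i) hc0
      exact_mod_cast this
    · rw [h.isDeg.mul]
      have := add_le_add hd2 hc1
      rw [zero_add] at this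
      exact this.trans hle

/-- **unitary groups of Witt index one over rings with a degree function** -/
theorem unitary_mem (hC : ClosedE C) (hsol : ∀ (S : Type) [Group S], Group.IsSolvable S → C S)
    (h : Dat deg τ H) (hnn : ∀ x, x ≠ 0 → 0 ≤ deg x) (h2 : (2 : A) ≠ 0)
    (hbd : ∀ n : ℕ, ∃ m : ℕ, ∀ z : ι → A, deg (h0 τ H z z) ≤ n → ∀ i, deg (z i) ≤ m)
    (J : Ideal A) (hJ : C (rdc (Uh τ H).subtype J).range)
    (hn : ∀ n : ℕ, ∃ k : ℕ, ∀ x ∈ J ^ k, deg x ≤ n → x = 0) : C (Uh τ H) := by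
  refine rep0 h hC (MonoidHom.id (Uh τ H)) fun n => ?_
  obtain ⟨N, hN⟩ := bounded h hnn h2 hbd n
  obtain ⟨k, hk⟩ := hn N
  refine ⟨_, _, (rdc (Uh τ H).subtype (J ^ (k + 1))).rangeRestrict,
    img_mem hC hsol _ J hJ k, fun g hg hg1 => ?_⟩
  have hb := hN g hg
  have hg1' : GeneralLinearGroup.map (Ideal.Quotient.mk (J ^ (k + 1))) (g : GL (Fin 2 ⊕ ι) A) = 1 :=
    congrArg Subtype.val hg1
  apply Subtype.ext
  apply Units.ext
  ext p q
  show ((g : GL (Fin 2 ⊕ ι) A) : Matrix (Fin 2 ⊕ ι) (Fin 2 ⊕ ι) A) p q = ((1 : GL (Fin 2 ⊕ ι) A) : Matrix (Fin 2 ⊕ ι) (Fin 2 ⊕ ι) A) p q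
  rw [Units.val_one]
  have h3 : (((g : GL (Fin 2 ⊕ ι) A) : Matrix (Fin 2 ⊕ ι) (Fin 2 ⊕ ι) A) - 1) p q = 0 := by
    refine hk _ ?_ ?_
    · have h4 := ker_sub _ _ hg1' p q
      exact Ideal.pow_le_pow_right (Nat.le_succ k) (Ideal.Quotient.eq_zero_iff_mem.1 h4)
    · rw [Matrix.sub_apply]
      refine (h.isDeg.sub _ _).trans (max_le (hb p q) ?_)
      rw [Matrix.one_apply]
      split_ifs
      · rw [h.isDeg.one]
        exact_mod_cast Nat.zero_le N
      · rw [(h.isDeg.bot 0).2 rfl]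
        exact bot_le
  rw [Matrix.sub_apply, sub_eq_zero] at h3
  exact h3

end mem

end Run7.h909.UG
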