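import Pool.Agent.Run7.h909.UG.Mem
import Pool.Agent.Run7.h909.GT.Fin

/-!
# Unitary groups of Witt index one over polynomial rings

Owner helper909.
-/

set_option autoImplicit false
set_option linter.unusedSectionVars false

open Pool.Agent.Y110.FJ (ClosedE)

namespace Run7.h909.UG

open Run7.h909.GT Matrix

variable {C : ∀ (G : Type) [Group G], Prop}

section transport

variable {A A' : Type} [CommRing A] [CommRing A'] {ι : Type} [Fintype ι] [DecidableEq ι]
  {τ : A →+* A} {τ' : A' →+* A'} {H : Matrix ι ι A}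

theorem map_h0 (φ : A →+* A') (hφ : ∀ x, φ (τ x) = τ' (φ x)) (z w : ι → A) :
    φ (h0 τ H z w) = h0 τ' (H.map φ) (fun i => φ (z i)) (fun i => φ (w i)) := by
  unfold h0
  rw [map_sum]
  refine Finset.sum_congr rfl fun i _ => ?_
  rw [map_sum]
  refine Finset.sum_congr rfl fun j _ => ?_
  rw [map_mul, map_mul, hφ]
  rfl

theorem map_hb (φ : A →+* A') (hφ : ∀ x, φ (τ x) = τ' (φ x)) (v w : Fin 2 ⊕ ι → A) :
    φ (hb τ H v w) = hb τ' (H.map φ) (fun i => φ (v i)) (fun i => φ (w i)) := by
  unfold hb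
  rw [map_add, map_add, map_mul, map_mul, hφ, hφ, map_h0 φ hφ]

theorem map_mv (φ : A →+* A') (g : GL (Fin 2 ⊕ ι) A) (v : Fin 2 ⊕ ι → A) :
    (fun p => φ (((g : Matrix (Fin 2 ⊕ ι) (Fin 2 ⊕ ι) A) *ᵥ v) p)) =
      ((GeneralLinearGroup.map φ g : GL (Fin 2 ⊕ ι) A') :
        Matrix (Fin 2 ⊕ ι) (Fin 2 ⊕ ι) A') *ᵥ (fun p => φ (v p)) := by
  funext p
  rw [mulVec, mulVec, dotProduct, dotProduct, map_sum]
  refine Finset.sum_congr rfl fun q _ => ?_
  rw [map_mul]
  rfl

theorem surj_map (φ : A →+* A') (hφ : ∀ x, φ (τ x) = τ' (φ x)) (hs : Function.Surjective φ)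
    {g : GL (Fin 2 ⊕ ι) A} (hg : g ∈ Uh τ H) : GeneralLinearGroup.map φ g ∈ Uh τ' (H.map φ) := by
  intro v w
  obtain ⟨v', hv'⟩ : ∃ v' : Fin 2 ⊕ ι → A, (fun p => φ (v' p)) = v :=
    ⟨fun p => (hs (v p)).choose, funext fun p => (hs (v p)).choose_spec⟩
  obtain ⟨w', hw'⟩ : ∃ w' : Fin 2 ⊕ ι → A, (fun p => φ (w' p)) = w :=
    ⟨fun p => (hs (w p)).choose, funext fun p => (hs (w p)).choose_spec⟩
  rw [← hv', ← hw', ← map_mv, ← map_mv, ← map_hb φ hφ, ← map_hb φ hφ, hg v' w']

/-- isomorphic rings -/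
theorem bij_mem (hC : ClosedE C) (φ : A →+* A') (hφ : ∀ x, φ (τ x) = τ' (φ x))
    (hb : Function.Bijective φ) (h : C (Uh τ' (H.map φ))) : C (Uh τ H) := by
  refine hC.base.of_injective _ _ (((GeneralLinearGroup.map φ).comp (Uh τ H).subtype).codRestrict
    (Uh τ' (H.map φ)) fun g => surj_map φ hφ hb.2 g.2) ?_ h
  intro x y hxy
  exact Subtype.ext (map_inj' φ hb.1 (congrArg Subtype.val hxy))

end transport

section poly

open Polynomial

variable {B : Type} [CommRing B] [IsDomain B] {ι : Type} [Fintype ι] [DecidableEq ι]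
  {τ : B →+* B} {H : Matrix ι ι B}

/-- the data over the base ring -/
structure Base (τ : B →+* B) (H : Matrix ι ι B) : Prop where
  inv : ∀ x, τ (τ x) = x
  herm : ∀ i j, H j i = τ (H i j)
  aniso : ∀ z : ι → B, h0 τ H z z = 0 → z = 0
  two : (2 : B) ≠ 0

/-- the degree -/
noncomputable def pdeg (x : B[X]) : WithBot ℤ := (x.degree.map (Nat.cast : ℕ → ℤ) : WithBot ℤ)

omit [IsDomain B] in
theorem pdeg_le (x : B[X]) (n : ℕ) : pdeg x ≤ n ↔ x.natDegree ≤ n := by
  by_cases hx : x = 0
  · rw [hx]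
    simp [pdeg]
  · rw [pdeg, Polynomial.degree_eq_natDegree hx]
    show (((x.natDegree : ℤ)) : WithBot ℤ) ≤ _ ↔ _
    constructor
    · intro h
      exact_mod_cast h
    · intro h
      exact_mod_cast h

omit [IsDomain B] in
theorem pdeg_eq {x : B[X]} (hx : x ≠ 0) : pdeg x = ((x.natDegree : ℤ) : WithBot ℤ) := by
  rw [pdeg, Polynomial.degree_eq_natDegree hx]
  rfl

theorem pdeg_isDeg : IsDeg (pdeg : B[X] → WithBot ℤ) :=
  poly_isDeg (RingHom.id B[X]) Function.injective_id

/-- the form over the polynomial ring -/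
noncomputable def HX (H : Matrix ι ι B) : Matrix ι ι B[X] := fun i j => Polynomial.C (H i j)

theorem HX_apply (H : Matrix ι ι B) (i j : ι) : HX H i j = Polynomial.C (H i j) := rfl

theorem h0_deg (z w : ι → B[X]) (m n : ℕ) (hz : ∀ i, (z i).natDegree ≤ m)
    (hw : ∀ i, (w i).natDegree ≤ n) :
    (h0 (Polynomial.mapRingHom τ) (HX H) z w).natDegree ≤ m + n ∧
    (h0 (Polynomial.mapRingHom τ) (HX H) z w).coeff (m + n) =
      h0 τ H (fun i => (z i).coeff m) (fun i => (w i).coeff n) := by
  have h1 : ∀ i j, ((Polynomial.mapRingHom τ) (z i) * (HX H) i j).natDegree ≤ m := by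
    intro i j
    refine Polynomial.natDegree_mul_le.trans ?_
    rw [HX_apply, Polynomial.natDegree_C, add_zero]
    exact Polynomial.natDegree_map_le.trans (hz i)
  constructor
  · unfold h0
    refine Polynomial.natDegree_sum_le_of_forall_le _ _ fun i _ =>
      Polynomial.natDegree_sum_le_of_forall_le _ _ fun j _ => ?_
    exact Polynomial.natDegree_mul_le.trans (add_le_add (h1 i j) (hw j))
  · unfold h0
    rw [Polynomial.finsetSum_coeff]
    refine Finset.sum_congr rfl fun i _ => ?_
    rw [Polynomial.finsetSum_coeff]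
    refine Finset.sum_congr rfl fun j _ => ?_
    rw [Polynomial.coeff_mul_add_eq_of_natDegree_le (h1 i j) (hw j), HX_apply,
      Polynomial.coeff_mul_C, Polynomial.coe_mapRingHom, Polynomial.coeff_map]

theorem h0_self (hB : Base τ H) {z : ι → B[X]} (hz : z ≠ 0) :
    ∃ m : ℕ, (∀ i, (z i).natDegree ≤ m) ∧
      pdeg (h0 (Polynomial.mapRingHom τ) (HX H) z z) = (((m + m : ℕ) : ℤ) : WithBot ℤ) := by
  obtain ⟨i0, hi0⟩ : ∃ i, z i ≠ 0 := by
    by_contra hcon
    push Not at hcon
    exact hz (funext hcon)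
  obtain ⟨i1, -, hi1⟩ := Finset.exists_mem_eq_sup Finset.univ ⟨i0, Finset.mem_univ _⟩
    (fun i => (z i).natDegree)
  obtain ⟨m, hm⟩ : ∃ m, m = Finset.univ.sup fun i => (z i).natDegree := ⟨_, rfl⟩
  have hle : ∀ i, (z i).natDegree ≤ m := fun i => by
    rw [hm]
    exact Finset.le_sup (f := fun i => (z i).natDegree) (Finset.mem_univ i)
  obtain ⟨h1, h2⟩ := h0_deg (τ := τ) (H := H) z z m m hle hle
  have hne : (fun i => (z i).coeff m) ≠ 0 := by
    intro h0
    by_cases hm0 : m = 0
    · have h3 := congrFun h0 i0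
      have h4 : (z i0).natDegree = 0 := by
        have := hle i0
        omega
      rw [Polynomial.eq_C_of_natDegree_eq_zero h4] at hi0
      have h5 : (z i0).coeff m = 0 := h3
      rw [hm0] at h5
      rw [h5, map_zero] at hi0
      exact hi0 rfl
    · have h3 : (z i1).coeff m = 0 := congrFun h0 i1
      have h4 : (z i1).natDegree = m := by rw [hm, hi1]
      rw [← h4] at h3
      have h5 := Polynomial.leadingCoeff_eq_zero.1 h3
      rw [h5, Polynomial.natDegree_zero] at h4
      exact hm0 h4.symm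
  have h3 : (h0 (Polynomial.mapRingHom τ) (HX H) z z).coeff (m + m) ≠ 0 := by
    rw [h2]
    exact fun e => hne (hB.aniso _ e)
  have h4 : h0 (Polynomial.mapRingHom τ) (HX H) z z ≠ 0 := by
    intro e
    rw [e, Polynomial.coeff_zero] at h3
    exact h3 rfl
  refine ⟨m, hle, ?_⟩
  rw [pdeg_eq h4]
  congr 2
  exact le_antisymm h1 (Polynomial.le_natDegree_of_ne_zero h3)

theorem base_poly (hB : Base τ H) : Base (Polynomial.mapRingHom τ) (HX H) where
  inv x := by
    rw [Polynomial.coe_mapRingHom, Polynomial.map_map]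
    have h1 : τ.comp τ = RingHom.id B := RingHom.ext hB.inv
    rw [h1, Polynomial.map_id]
  herm i j := by
    rw [HX_apply, HX_apply, Polynomial.coe_mapRingHom, Polynomial.map_C, hB.herm i j]
  aniso z hz := by
    by_contra hne
    obtain ⟨m, -, hm⟩ := h0_self hB hne
    rw [hz, (pdeg_isDeg.bot 0).2 rfl] at hm
    exact WithBot.coe_ne_bot hm.symm
  two := by
    have h1 : (2 : B[X]) = Polynomial.C 2 := (map_ofNat (Polynomial.C : B →+* B[X]) 2).symm
    rw [h1, Ne, Polynomial.C_eq_zero]
    exact hB.two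

theorem dat_poly (hB : Base τ H) : Dat pdeg (Polynomial.mapRingHom τ) (HX H) where
  isDeg := pdeg_isDeg
  inv := (base_poly hB).inv
  herm := (base_poly hB).herm
  deg_tau x := by
    have hinj : Function.Injective τ := fun a b e => by rw [← hB.inv a, ← hB.inv b, e]
    unfold pdeg
    rw [Polynomial.coe_mapRingHom, Polynomial.degree_map_eq_of_injective hinj]
  cs z w := by
    by_cases hz : z = 0
    · rw [hz, h0_zero_left, (pdeg_isDeg.bot 0).2 rfl, WithBot.bot_add]
      exact bot_le
    by_cases hw : w = 0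
    · rw [hw, h0_zero_right, (pdeg_isDeg.bot 0).2 rfl, WithBot.bot_add]
      exact bot_le
    obtain ⟨m, hm, hm'⟩ := h0_self hB hz
    obtain ⟨n, hn, hn'⟩ := h0_self hB hw
    rw [hm', hn']
    have h1 := (pdeg_le _ _).2 (h0_deg (τ := τ) (H := H) z w m n hm hn).1
    refine (add_le_add h1 h1).trans (le_of_eq ?_)
    norm_cast
    ring

/-- **polynomial rings in one variable** -/
theorem upoly_mem (hC : ClosedE C) (hsol : ∀ (S : Type) [Group S], Group.IsSolvable S → C S)
    (hB : Base τ H) (h : C (Uh τ H)) : C (Uh (Polynomial.mapRingHom τ) (HX H)) := by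
  have hcc : ∀ x : B[X], Polynomial.constantCoeff ((Polynomial.mapRingHom τ) x) =
      τ (Polynomial.constantCoeff x) := by
    intro x
    rw [Polynomial.constantCoeff_apply, Polynomial.constantCoeff_apply, Polynomial.coe_mapRingHom,
      Polynomial.coeff_map]
  have hH : (HX H).map (Polynomial.constantCoeff : B[X] →+* B) = H := by
    ext i j
    rw [Matrix.map_apply, HX_apply, Polynomial.constantCoeff_apply,
      Polynomial.coeff_C_zero]
  refine unitary_mem hC hsol (dat_poly hB) ?_ (base_poly hB).two ?_ (Ideal.span {X}) ?_ ?_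
  · intro x hx
    rw [pdeg_eq hx]
    exact_mod_cast Nat.zero_le _
  · intro n
    refine ⟨n, fun z hz i => ?_⟩
    by_cases hz0 : z = 0
    · rw [hz0]
      show pdeg (0 : B[X]) ≤ _
      rw [(pdeg_isDeg.bot 0).2 rfl]
      exact bot_le
    · obtain ⟨m, hm, hm'⟩ := h0_self hB hz0
      rw [hm'] at hz
      rw [pdeg_le]
      have h1 : m + m ≤ n := by exact_mod_cast hz
      exact (hm i).trans (by omega)
  · -- the reduction modulo `X`
    obtain ⟨lf, hlf⟩ : ∃ lf : (B[X] ⧸ Ideal.span {(X : B[X])}) →+* B, ∀ x,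
        lf (Ideal.Quotient.mk _ x) = Polynomial.constantCoeff x :=
      ⟨Ideal.Quotient.lift _ Polynomial.constantCoeff (fun x hx => by
        rw [Ideal.mem_span_singleton, Polynomial.X_dvd_iff] at hx
        exact hx), fun x => Ideal.Quotient.lift_mk _ _ _⟩
    have hcod : ∀ x : (rdc (Uh (Polynomial.mapRingHom τ) (HX H)).subtype
        (Ideal.span {(X : B[X])})).range,
        ((GeneralLinearGroup.map (n := Fin 2 ⊕ ι) lf).comp (Subgroup.subtype _)) x ∈ Uh τ H := by
      rintro ⟨_, g, rfl⟩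
      have h1 := surj_map (τ := Polynomial.mapRingHom τ) (τ' := τ) Polynomial.constantCoeff hcc
        (fun b => ⟨Polynomial.C b, Polynomial.coeff_C_zero⟩) g.2
      rw [hH] at h1
      refine Eq.mp ?_ h1
      congr 1
      ext i j
      exact (hlf _).symm
    refine hC.base.of_injective _ _ (((GeneralLinearGroup.map (n := Fin 2 ⊕ ι) lf).comp
      (Subgroup.subtype _)).codRestrict (Uh τ H) hcod) ?_ h
    intro x y hxy
    refine Subtype.ext (map_inj' lf ?_ (congrArg Subtype.val hxy))
    rw [injective_iff_map_eq_zero]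
    intro x
    obtain ⟨a, rfl⟩ := Ideal.Quotient.mk_surjective x
    intro hx
    rw [hlf] at hx
    rw [Ideal.Quotient.eq_zero_iff_mem, Ideal.mem_span_singleton, Polynomial.X_dvd_iff]
    exact hx
  · intro n
    refine ⟨n + 1, fun x hx hd => ?_⟩
    rw [Ideal.span_singleton_pow, Ideal.mem_span_singleton] at hx
    by_contra hx0
    have h4 := Polynomial.degree_le_of_dvd hx hx0
    rw [Polynomial.degree_X_pow, Polynomial.degree_eq_natDegree hx0] at h4
    rw [pdeg_le] at hd
    have h7 : n + 1 ≤ x.natDegree := by exact_mod_cast h4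
    omega

end poly

section mv

variable {B : Type} [CommRing B] [IsDomain B] {ι : Type} [Fintype ι] [DecidableEq ι]
  {τ : B →+* B} {H : Matrix ι ι B}

/-- the data are inherited under isomorphisms -/
theorem base_of_bij {A : Type} [CommRing A] [IsDomain A] {τ' : A →+* A}
    (φ : B →+* A) (hφ : ∀ x, φ (τ x) = τ' (φ x)) (hb : Function.Bijective φ)
    (h : Base τ' (H.map φ)) : Base τ H where
  inv x := hb.1 (by rw [hφ, hφ, h.inv])
  herm i j := hb.1 (by
    have h1 := h.herm i j
    rw [Matrix.map_apply, Matrix.map_apply] at h1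
    rw [hφ, h1])
  aniso z hz := by
    have h1 := map_h0 (τ := τ) (H := H) (τ' := τ') φ hφ z z
    rw [hz, map_zero] at h1
    have h2 := h.aniso _ h1.symm
    funext i
    exact hb.1 ((congrFun h2 i).trans (map_zero φ).symm)
  two := by
    intro e
    apply h.two
    rw [← map_ofNat φ 2, e, map_zero]

/-- the form over the polynomial ring -/
noncomputable def HM (σ : Type) (H : Matrix ι ι B) : Matrix ι ι (MvPolynomial σ B) :=
  fun i j => MvPolynomial.C (H i j)

theorem HM_apply (σ : Type) (H : Matrix ι ι B) (i j : ι) :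
    HM σ H i j = MvPolynomial.C (H i j) := rfl

theorem mv_step (n : ℕ) (hB : Base (MvPolynomial.map (σ := Fin n) τ) (HM (Fin n) H)) :
    Base (MvPolynomial.map (σ := Fin (n + 1)) τ) (HM (Fin (n + 1)) H) ∧
    (∀ {C : ∀ (G : Type) [Group G], Prop}, ClosedE C →
      (∀ (S : Type) [Group S], Group.IsSolvable S → C S) →
      C (Uh (MvPolynomial.map (σ := Fin n) τ) (HM (Fin n) H)) →
      C (Uh (MvPolynomial.map (σ := Fin (n + 1)) τ) (HM (Fin (n + 1)) H))) := by
  obtain ⟨φ, hφ⟩ : ∃ φ : MvPolynomial (Fin (n + 1)) B →+* Polynomial (MvPolynomial (Fin n) B),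
      φ = (MvPolynomial.finSuccEquiv B n).toRingEquiv.toRingHom := ⟨_, rfl⟩
  have hbij : Function.Bijective φ := by
    rw [hφ]
    exact (MvPolynomial.finSuccEquiv B n).bijective
  have hc : ∀ x, φ (MvPolynomial.map τ x) =
      (Polynomial.mapRingHom (MvPolynomial.map (σ := Fin n) τ)) (φ x) := by
    intro x
    have h1 : φ.comp (MvPolynomial.map τ) =
        (Polynomial.mapRingHom (MvPolynomial.map (σ := Fin n) τ)).comp φ := by
      apply MvPolynomial.ringHom_ext
      · intro r
        rw [RingHom.comp_apply, RingHom.comp_apply, MvPolynomial.map_C, hφ]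
        show MvPolynomial.finSuccEquiv B n (MvPolynomial.C (τ r)) =
          (Polynomial.mapRingHom (MvPolynomial.map τ))
            (MvPolynomial.finSuccEquiv B n (MvPolynomial.C r))
        rw [MvPolynomial.finSuccEquiv_apply, MvPolynomial.finSuccEquiv_apply]
        simp
      · intro i
        rw [RingHom.comp_apply, RingHom.comp_apply, MvPolynomial.map_X, hφ]
        show MvPolynomial.finSuccEquiv B n (MvPolynomial.X i) =
          (Polynomial.mapRingHom (MvPolynomial.map τ))
            (MvPolynomial.finSuccEquiv B n (MvPolynomial.X i))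
        rw [MvPolynomial.finSuccEquiv_apply]
        refine Fin.cases ?_ (fun i => ?_) i
        · simp
        · simp
    exact congrArg (fun f => f x) h1
  have hH : (HM (Fin (n + 1)) H).map φ = HX (HM (Fin n) H) := by
    ext1 i j
    rw [Matrix.map_apply, HM_apply, HX_apply, HM_apply, hφ]
    show MvPolynomial.finSuccEquiv B n (MvPolynomial.C (H i j)) = _
    rw [MvPolynomial.finSuccEquiv_apply]
    simp
  constructor
  · refine base_of_bij φ hc hbij ?_
    rw [hH]
    exact base_poly hB
  · intro C hC hsol h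
    refine bij_mem hC φ hc hbij ?_
    rw [hH]
    exact upoly_mem hC hsol hB h

theorem mv_zero (hB : Base τ H) :
    Base (MvPolynomial.map (σ := Fin 0) τ) (HM (Fin 0) H) ∧
    (∀ {C : ∀ (G : Type) [Group G], Prop}, ClosedE C →
      C (Uh τ H) → C (Uh (MvPolynomial.map (σ := Fin 0) τ) (HM (Fin 0) H))) := by
  obtain ⟨φ, hφ⟩ : ∃ φ : MvPolynomial (Fin 0) B →+* B,
      φ = (MvPolynomial.isEmptyRingEquiv B (Fin 0)).toRingHom := ⟨_, rfl⟩
  have hbij : Function.Bijective φ := by
    rw [hφ]
    exact (MvPolynomial.isEmptyRingEquiv B (Fin 0)).bijective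
  have hC0 : ∀ r, φ (MvPolynomial.C r) = r := by
    intro r
    have h1 : MvPolynomial.isEmptyRingEquiv B (Fin 0) (MvPolynomial.C r) = r := by
      rw [← MvPolynomial.isEmptyRingEquiv_symm_apply, RingEquiv.apply_symm_apply]
    rw [hφ]
    exact h1
  have hc : ∀ x, φ (MvPolynomial.map τ x) = τ (φ x) := by
    intro x
    have h1 : φ.comp (MvPolynomial.map τ) = τ.comp φ := by
      apply MvPolynomial.ringHom_ext
      · intro r
        rw [RingHom.comp_apply, RingHom.comp_apply, MvPolynomial.map_C, hC0, hC0]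
      · intro i
        exact i.elim0
    exact congrArg (fun f => f x) h1
  have hH : (HM (Fin 0) H).map φ = H := by
    ext1 i j
    rw [Matrix.map_apply, HM_apply, hC0]
  constructor
  · refine base_of_bij φ hc hbij ?_
    rw [hH]
    exact hB
  · intro C hC h
    refine bij_mem hC φ hc hbij ?_
    rw [hH]
    exact h

/-- **polynomial rings in several variables** -/
theorem umv_mem (hC : ClosedE C) (hsol : ∀ (S : Type) [Group S], Group.IsSolvable S → C S)
    (hB : Base τ H) (h : C (Uh τ H)) (n : ℕ) :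
    Base (MvPolynomial.map (σ := Fin n) τ) (HM (Fin n) H) ∧
      C (Uh (MvPolynomial.map (σ := Fin n) τ) (HM (Fin n) H)) := by
  induction n with
  | zero => exact ⟨(mv_zero hB).1, (mv_zero hB).2 hC h⟩
  | succ n ih => exact ⟨(mv_step n ih.1).1, (mv_step n ih.1).2 hC hsol ih.2⟩

end mv

end Run7.h909.UG
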