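import Pool.Agent.Run7.h909.UG.Lf

/-!
# Definitions for the statements about unitary groups

Owner helper909.
-/

set_option autoImplicit false
set_option linter.unusedSectionVars false

open Pool.Agent.Y110.FJ (ClosedE)

namespace Run7.h909.UG

open Run7.h909.GT Matrix

section defs

variable {A : Type} [CommRing A] {ι : Type} [Fintype ι] [DecidableEq ι]

/-- the isometry group of the orthogonal sum of a hyperbolic plane and the form with the Gram matrix
`H` is in the class `C` -/
def UMem (C : ∀ (G : Type) [Group G], Prop) (τ : A →+* A) (H : Matrix ι ι A) : Prop :=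
  C (Uh τ H)

/-- the isometry group -/
def UGrp (τ : A →+* A) (H : Matrix ι ι A) : Type := Uh τ H

instance (τ : A →+* A) (H : Matrix ι ι A) : Group (UGrp τ H) := inferInstanceAs (Group (Uh τ H))

/-- the scalar products of the isotropic vectors in the list `av H` with their images under `g` -/
def pair {τ : A →+* A} {H : Matrix ι ι A} (g : UGrp τ H) (p q : Fin 2 ⊕ ι) : A :=
  hb τ H (av H p) (g.1.1 *ᵥ av H q)

/-- the reduction of the isometry group modulo an ideal -/
noncomputable def redU (τ : A →+* A) (H : Matrix ι ι A) (J : Ideal A) :
    Uh τ H →* GL (Fin 2 ⊕ ι) (A ⧸ J) :=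
  (GeneralLinearGroup.map (Ideal.Quotient.mk J)).comp (Uh τ H).subtype

/-- the image of the isometry group in the general linear group modulo the ideal `J` is in the class
`C` -/
def RMem (C : ∀ (G : Type) [Group G], Prop) (τ : A →+* A) (H : Matrix ι ι A) (J : Ideal A) : Prop :=
  C (redU τ H J).range

end defs

end Run7.h909.UG
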